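import Pool.Agent.Work.MP_8495a2_pr.Main

namespace Pool.Agent.Results.MP_8495a2_pr.SharpModulus

open Pool.Agent.Work.MP_8495a2_pr MeasureTheory Filter Topology Set
open scoped ENNReal

/-- Sharpness of the modulus of continuity `r^(1/3) log^(2/3) (2/r)` for the weight function of the
geodesic from `(0,0)` to `(0,1)` in the directed landscape: there is a deterministic `c > 0` such
that almost surely a geodesic exists and every geodesic has `lim_{ε → 0} M(ε) ≥ c`. -/
theorem result {Ω : Type*} [MeasurableSpace Ω] (P : Measure Ω) [IsProbabilityMeasure P]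
    (L : Ω → Up → ℝ) (hL : IsDirectedLandscape P L) :
    ∃ c : ℝ, 0 < c ∧ ∀ᵐ ω ∂P, (∃ π : ℝ → ℝ, IsGeodesic (L ω) π) ∧
      ∀ π : ℝ → ℝ, IsGeodesic (L ω) π →
        ∃ m : ℝ≥0∞, ENNReal.ofReal c ≤ m ∧ Tendsto (modulus (L ω) π) (𝓝[>] 0) (𝓝 m) :=
  let ⟨c, hc, h⟩ := hL.main
  ⟨c, hc, hL.exists_geodesic.and h⟩

end Pool.Agent.Results.MP_8495a2_pr.SharpModulus
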